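import Pool.Agent.R211.CD.Crit

/-!
Regularity of periodic solutions of the Navier-Stokes equations whose vorticity direction is
uniformly continuous (with an arbitrary modulus of continuity) where the vorticity is large.
-/

open MeasureTheory Set
open H459R3.NS

namespace Pool.Agent.Results.MP_6bf1e5_an.ContinuousVorticityDirection

/-- The Euclidean length of a vector of `ℝ³`. -/
noncomputable def len (a : V) : ℝ := Real.sqrt (∑ i, a i ^ 2)

/-- The curl of a vector field. -/
noncomputable def curl (v : V → V) (x : V) : V :=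
  ![pd 1 (fun y => v y 2) x - pd 2 (fun y => v y 1) x,
    pd 2 (fun y => v y 0) x - pd 0 (fun y => v y 2) x,
    pd 0 (fun y => v y 1) x - pd 1 (fun y => v y 0) x]

/-- The oscillation of the direction `W / |W|` at the scale `r` on the set `{|W| > K}` is at most
`δ`: for all `x, y` in this set with `|x - y| ≤ r`, `|W(x) / |W(x)| - W(y) / |W(y)|| ≤ δ` (the
denominators are cleared). -/
def DirOsc (W : V → V) (K δ r : ℝ) : Prop := ∀ x y : V, K < len (W x) → K < len (W y) →
  len (x - y) ≤ r → len (len (W y) • W x - len (W x) • W y) ≤ δ * (len (W x) * len (W y))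

/-- There is an absolute constant `c > 0` such that the following holds. Let `(u, p)` be a smooth
`1`-periodic solution of the Navier-Stokes equations on `[0, T)` with viscosity `ν > 0` and without
force, and let `W` be its vorticity. Suppose that, for some `K`,

* the direction `ξ = W / |W|` is uniformly continuous on `{|W| > K}`, with an arbitrary modulus of
  continuity which does not depend on `t`: for every `ε > 0` there is `r > 0` such that for almost
  every `t`, `|ξ(x) - ξ(y)| ≤ ε` for all `x, y` with `|x - y| ≤ r` at which `|W| > K`; or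
* `K > 0`, the integral of `|W|` over the period cell is at most `J`, and for almost every `t` there
  are `0 < r ≤ R ≤ 1` such that the oscillation of `ξ` on `{|W| > K}` is at most `1/10` at the
  scale `R` and at most `c (ν R / (J + K)) ^ 3` at the scale `r`, and `1 / (R r ^ 2) ≤ g(t)` with an
  integrable function `g`.

Then the enstrophy and the velocity are bounded on `[0, T)`. -/
theorem result : ∃ c : ℝ, 0 < c ∧ ∀ (ν T : ℝ) (u : ℝ → V → V) (p : ℝ → V → ℝ),
    IsSol ν T u p → 0 < ν →
    ((∃ K : ℝ, ∀ ε : ℝ, 0 < ε → ∃ r : ℝ, 0 < r ∧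
        ∀ᵐ t ∂volume.restrict (Ioo 0 T), DirOsc (curl (u t)) K ε r) ∨
      (∃ (K J : ℝ) (g : ℝ → ℝ), 0 < K ∧
        (∀ t ∈ Ico 0 T, ∫ x in cube, len (curl (u t) x) ≤ J) ∧ IntegrableOn g (Ioo 0 T) ∧
        ∀ᵐ t ∂volume.restrict (Ioo 0 T), ∃ R r : ℝ, 0 < r ∧ r ≤ R ∧ R ≤ 1 ∧
          (R * r ^ 2)⁻¹ ≤ g t ∧ DirOsc (curl (u t)) K (1 / 10) R ∧
          DirOsc (curl (u t)) K (c * (ν * R / (J + K)) ^ 3) r)) →
    (∃ A, ∀ t ∈ Ico 0 T, enstrophy (u t) ≤ A) ∧ ∃ M, ∀ t ∈ Ico 0 T, ∀ x i, |u t x i| ≤ M := by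
  refine ⟨Pool.Agent.R211.CD.c0, Pool.Agent.R211.CD.c0_pos, fun ν T u p h hν hdir => ?_⟩
  rcases hdir with ⟨K, hK⟩ | ⟨K, J, g, hK, hJ, hg, hd⟩
  · exact Pool.Agent.R211.CD.crit_uc h hν hK
  · exact Pool.Agent.R211.CD.crit h hν hK hJ hg hd

end Pool.Agent.Results.MP_6bf1e5_an.ContinuousVorticityDirection
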