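import Pool.Agent.R211.WN.Win3

/-!
A regularity criterion for the three-dimensional Navier-Stokes equations on the torus which only
concerns windows of frequencies `N^θ ≤ |k| ≤ N^γ`, for an unbounded set of numbers `N`, where
`θ < 4 / 5` and `γ > 1` are arbitrary.

The strain of the modes in such a window is compared with the viscous rate `ν R²`. The excess is
allowed to have the integral `c log N` over the time interval, which grows with `N`.
-/

open MeasureTheory Set
open scoped ContDiff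

set_option autoImplicit false

namespace Pool.Agent.Results.MP_6bf1e5_an.FrequencyWindows

/-- The space `ℝ³`. -/
abbrev R3 := Fin 3 → ℝ

/-- The frequencies. -/
abbrev Z3 := Fin 3 → ℤ

/-- The period cell `[0, 2π)³`. -/
def cell : Set R3 := Set.pi univ fun _ => Ico 0 (2 * Real.pi)

/-- `f` is `2π`-periodic in each coordinate. -/
def Periodic {F : Type*} (f : R3 → F) : Prop :=
  ∀ (i : Fin 3) (x : R3), f (x + Pi.single i (2 * Real.pi)) = f x

/-- The Fourier coefficient `(2π)⁻³ ∫ f(x) exp(-i k · x) dx`. -/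
noncomputable def coeff (f : R3 → ℝ) (k : Z3) : ℂ :=
  (((2 * Real.pi) ^ 3)⁻¹ : ℝ) • ∫ x in cell,
    Complex.exp (-((∑ j, (k j : ℝ) * x j : ℝ) : ℂ) * Complex.I) * (f x : ℂ)

/-- The Laplacian. -/
noncomputable def laplacian (f : R3 → ℝ) (x : R3) : ℝ :=
  ∑ j, fderiv ℝ (fun y => fderiv ℝ f y (Pi.single j 1)) x (Pi.single j 1)

/-- `(u, p)` is a smooth solution on `[0, T) × (ℝ / 2πℤ)³` of the Navier-Stokes equations
`∂ₜ u + (u · ∇) u = ν Δ u - ∇ p`, `div u = 0`. -/
structure NavierStokes (ν T : ℝ) (u : ℝ → R3 → R3) (p : ℝ → R3 → ℝ) : Prop where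
  smooth_u : ContDiffOn ℝ ∞ (fun z : ℝ × R3 => u z.1 z.2) (Ico 0 T ×ˢ univ)
  smooth_p : ContDiffOn ℝ ∞ (fun z : ℝ × R3 => p z.1 z.2) (Ico 0 T ×ˢ univ)
  periodic_u : ∀ t ∈ Ico 0 T, Periodic (u t)
  periodic_p : ∀ t ∈ Ico 0 T, Periodic (p t)
  div_free : ∀ t ∈ Ico 0 T, ∀ x, ∑ i, fderiv ℝ (u t) x (Pi.single i 1) i = 0
  momentum : ∀ t ∈ Ico 0 T, ∀ x i,
    derivWithin (fun s => u s x i) (Ico 0 T) t + fderiv ℝ (u t) x (u t x) i
      = ν * laplacian (fun y => u t y i) x - fderiv ℝ (p t) x (Pi.single i 1)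

/-- The length `|k|` of a frequency. -/
noncomputable def len (k : Z3) : ℝ := Real.sqrt (∑ j, (k j : ℝ) ^ 2)

/-- The strain `∑ |k| |v̂(k)|` of the modes of `v` with `r ≤ |k| ≤ R`, a bound for the gradient of
this part of `v`. -/
noncomputable def strain (v : R3 → R3) (r R : ℝ) : ℝ :=
  ∑' k : Z3, if r ≤ len k ∧ len k ≤ R then
    len k * Real.sqrt (∑ i, ‖coeff (fun x => v x i) k‖ ^ 2) else 0

open Pool.Agent.R211.SV Pool.Agent.R211.WN Pool.Agent.Y302.Tri Pool.Agent.H708R2.EulerModes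
open Pool.Agent.H708R2.EulerSign (Dom Periodic3 divergence divergence_eq_sum contDiff_slice)

lemma cell_eq : cell = Dom := by
  ext x
  rw [mem_Dom]
  simp [cell]

lemma coeff_eq (f : R3 → ℝ) (k : Z3) : coeff f k = cf f k := by
  have e : ∀ y : R3, H459R3.NS.ee (-k) y * Pool.Agent.Y302.Trunc.resc f y
      = (fun x : R3 => Complex.exp (-((∑ j, (k j : ℝ) * x j : ℝ) : ℂ) * Complex.I) * (f x : ℂ))
        ((2 * Real.pi) • y) := by
    intro y
    rw [ee_eq]
    have h1 : ph (-k) ((2 * Real.pi) • y)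
        = -∑ j, (k j : ℝ) * ((2 * Real.pi) • y) j := by
      unfold ph
      rw [← Finset.sum_neg_distrib]
      refine Finset.sum_congr rfl fun j _ => ?_
      rw [Pi.neg_apply]
      push_cast
      ring
    rw [h1, Complex.ofReal_neg]
    rfl
  unfold cf H459R3.NS.fc coeff
  simp only [e]
  rw [Pool.Agent.Y302.Trunc.integral_resc (fun x : R3 =>
    Complex.exp (-((∑ j, (k j : ℝ) * x j : ℝ) : ℂ) * Complex.I) * (f x : ℂ)), cell_eq,
    Module.finrank_fin_fun]

lemma cf_sum {f : Fin 3 → R3 → ℝ} (hf : ∀ j, Continuous (f j)) (k : Z3) :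
    cf (fun x => ∑ j, f j x) k = ∑ j, cf (f j) k := by
  simp only [Fin.sum_univ_three]
  have h1 := cf_add (f := fun x => f 0 x + f 1 x) (g := f 2) ((hf 0).add (hf 1)) (hf 2) k
  rw [h1, cf_add (hf 0) (hf 1)]

lemma cf_lap {f : R3 → ℝ} (hf : ContDiff ℝ 2 f) (hp : Periodic3 f) (k : Z3) :
    cf (laplacian f) k = -((len k ^ 2 : ℝ) : ℂ) * cf f k := by
  have h1 : ∀ j : Fin 3, ContDiff ℝ 1 (fun y => fderiv ℝ f y (Pi.single j 1)) := fun j =>
    (hf.fderiv_right (by norm_num)).clm_apply contDiff_const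
  have h2 : ∀ j : Fin 3, Periodic3 (fun y => fderiv ℝ f y (Pi.single j 1)) := by
    intro j i x
    simp only
    rw [hp.fderiv i x]
  have h3 : ∀ j : Fin 3, Continuous
      (fun x => fderiv ℝ (fun y => fderiv ℝ f y (Pi.single j 1)) x (Pi.single j 1)) := fun j =>
    ((h1 j).continuous_fderiv one_ne_zero).clm_apply continuous_const
  have e : laplacian f = fun x => ∑ j, fderiv ℝ (fun y => fderiv ℝ f y (Pi.single j 1)) x
      (Pi.single j 1) := rfl
  rw [e, cf_sum h3]
  have h4 : len k ^ 2 = ∑ j, (k j : ℝ) ^ 2 :=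
    Real.sq_sqrt (Finset.sum_nonneg fun _ _ => sq_nonneg _)
  rw [h4]
  push_cast
  rw [← Finset.sum_neg_distrib, Finset.sum_mul]
  refine Finset.sum_congr rfl fun j _ => ?_
  rw [cf_pd (h2 j) (h1 j), cf_pd hp (hf.of_le (by norm_num))]
  have hI := Complex.I_sq
  linear_combination ((k j : ℂ) ^ 2 * cf f k) * hI

lemma sol_of {ν T : ℝ} {u : ℝ → R3 → R3} {p : ℝ → R3 → ℝ} (h : NavierStokes ν T u p) :
    IsSmoothSol (fun k => ν * kn k ^ 2) T u p := by
  refine ⟨⟨⟨h.smooth_u.of_le (by exact_mod_cast le_top), h.smooth_p.of_le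
    (by exact_mod_cast le_top), h.periodic_u, h.periodic_p, fun t ht x => ?_⟩,
    fun t ht k i => ?_⟩, h.smooth_u, h.smooth_p⟩
  · rw [divergence_eq_sum]
    exact h.div_free t ht x
  · have hui : ContDiff ℝ ∞ (fun x => u t x i) := by
      have h1 := H459R3.NS.contDiff_slice (f := fun t x => u t x i)
        ((contDiff_apply ℝ ℝ i).comp_contDiffOn h.smooth_u) ht
      exact h1
    have hper : Periodic3 (fun x => u t x i) := comp_periodic (h.periodic_u t ht) i
    have e1 : (fun x => lin (Ico 0 T) u p t i x + cvt (u t) i x)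
        = fun x => ν * laplacian (fun y => u t y i) x := by
      funext x
      have h2 := h.momentum t ht x i
      rw [cvt_eq]
      unfold lin
      linarith
    rw [e1, cf_const_mul, cf_lap (hui.of_le (WithTop.coe_le_coe.2 le_top)) hper]
    have e2 : len k = kn k := rfl
    rw [e2]
    unfold cv
    push_cast
    ring

lemma strain_eq (v : R3 → R3) (r R : ℝ) : strain v r R = winA (cv v) r R := by
  unfold strain winA
  refine tsum_congr fun k => ?_
  have e1 : len k = kn k := rfl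
  have e2 : Real.sqrt (∑ i, ‖coeff (fun x => v x i) k‖ ^ 2) = nv (cv v) k := by
    unfold nv cv
    congr 1
    exact Finset.sum_congr rfl fun i _ => by rw [coeff_eq]
  rw [e1, e2]

/-- **Main theorem.** Let `γ > 1` and `0 ≤ θ < 4 / 5`. There is a constant `c > 0` with the following
property. Let `(u, p)` be a smooth periodic solution of the Navier-Stokes equations with viscosity
`ν > 0` on `[0, T)`. Suppose that there are arbitrarily large numbers `N` and functions `β ≥ 0` with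
`∫₀ᵀ β ≤ c log N` such that for all `t ∈ (0, T)` and all `R ∈ [N, N^γ]`
`∑_{N^θ ≤ |k| ≤ R} |k| |û(t, k)| ≤ c ν R² + β(t)`.
Then `u` is bounded on `[0, T) × ℝ³`, so that `T` is not a blow-up time. -/
theorem result {γ θ : ℝ} (hγ : 1 < γ) (hθ0 : 0 ≤ θ) (hθ : θ < 4 / 5) :
    ∃ c : ℝ, 0 < c ∧ ∀ (ν T : ℝ) (u : ℝ → R3 → R3) (p : ℝ → R3 → ℝ), 0 < ν →
      NavierStokes ν T u p →
      (∀ N₀ : ℝ, ∃ N, N₀ ≤ N ∧ ∃ β : ℝ → ℝ, IntegrableOn β (Ioo 0 T) ∧
        ∫ t in Ioo 0 T, β t ≤ c * Real.log N ∧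
        ∀ t ∈ Ioo 0 T, 0 ≤ β t ∧ ∀ R ∈ Icc N (N ^ γ),
          strain (u t) (N ^ θ) R ≤ c * ν * R ^ 2 + β t) →
      ∃ B, ∀ t ∈ Ico 0 T, ∀ x i, |u t x i| ≤ B := by
  obtain ⟨c, hc, h⟩ := window hγ hθ0 hθ
  refine ⟨c, hc, fun ν T u p hν hu hwin => ?_⟩
  refine h (fun k => ν * kn k ^ 2) ν 2 ν T u p hν (fun k => ?_) (fun k => le_rfl) (sol_of hu) ?_
  · have h1 := kn_nonneg k
    rw [abs_of_nonneg (by positivity)]
    exact mul_le_mul_of_nonneg_left (pow_kn_le 2 k) hν.le
  · simpa only [strain_eq] using hwin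

end Pool.Agent.Results.MP_6bf1e5_an.FrequencyWindows
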