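import Pool.Agent.R211.HV.Final

/-!
Global smooth solutions for the three-dimensional periodic Navier-Stokes equations with a dissipation
which is strong in a finite range of frequencies.

The linear dissipation is a Fourier multiplier with a nonnegative symbol `d`, and the nonlinearity is
exactly that of the Navier-Stokes equations. For a given smooth initial velocity `v` one needs only
that the sum `∑ 2^(-5 j / 2) inf {d k : |k| ≥ 2^j}`, taken over the `j > m`, is larger than an absolute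
constant times the `L²` norm of `v`. Here `m` is any number such that
`‖v‖² in H³ ≤ 64^m ‖v‖² in L²`.

One summand is enough. For instance let `d k = ν |k|²` for all frequencies outside of one window
`N ≤ |k| ≤ (K / ν)^(1/2) N^(5/4)`, and `d k ≥ K N^(5/2)` in the window. If `K` is larger than a multiple of
the norm of `v` and `N = 2^j` with `j > m`, then there is a global smooth solution with the initial
velocity `v`, although only finitely many modes are treated differently from the Navier-Stokes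
equations.

If the series diverges, then this holds for all `v`: for instance if `d k = f(|k|)` with an increasing
function `f` such that `∫ f(s) s^(-7/2) ds = ∞`, or if `d k = ν |k|²` except in the windows
`N ≤ |k| ≤ C N^(5/4)` of an arbitrarily sparse sequence of numbers `N`, where `d k ≥ c N^(5/2)`.
-/

open MeasureTheory Set
open scoped ContDiff

set_option autoImplicit false

namespace Pool.Agent.Results.MP_6bf1e5_an.HyperviscousWindow

/-- The space `ℝ³`. -/
abbrev R3 := Fin 3 → ℝ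

/-- The frequencies. -/
abbrev Z3 := Fin 3 → ℤ

/-- The period cell `[0, 2π)³`. -/
def cell : Set R3 := Set.pi univ fun _ => Ico 0 (2 * Real.pi)

/-- `f` is `2π`-periodic in each coordinate. -/
def Periodic {F : Type*} (f : R3 → F) : Prop :=
  ∀ (i : Fin 3) (x : R3), f (x + Pi.single i (2 * Real.pi)) = f x

/-- The Fourier coefficient `(2π)⁻³ ∫ f(x) exp(-i k · x) dx`. -/
noncomputable def coeff (f : R3 → ℝ) (k : Z3) : ℂ :=
  (((2 * Real.pi) ^ 3)⁻¹ : ℝ) • ∫ x in cell,
    Complex.exp (-((∑ j, (k j : ℝ) * x j : ℝ) : ℂ) * Complex.I) * (f x : ℂ)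

/-- The Euclidean length `|k|`. -/
noncomputable def len (k : Z3) : ℝ := √(∑ j, (k j : ℝ) ^ 2)

/-- `|v^(k)|²`, the squared Euclidean length of the Fourier coefficient of the field `v` at `k`. -/
noncomputable def msq (v : R3 → R3) (k : Z3) : ℝ := ∑ i, ‖coeff (fun x => v x i) k‖ ^ 2

/-- `(u, p)` is a solution of class `Cⁿ`, on `I × (ℝ / 2πℤ)³` with a time interval `I`, of the
Navier-Stokes equations with the dissipation given by the Fourier multiplier with the symbol `d`:
`div u = 0`, and for every time `t`, every component `i` and every frequency `k` the Fourier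
coefficient at `k` of `∂ₜ uᵢ + (u · ∇) uᵢ + ∂ᵢ p` is `-d(k)` times the one of `uᵢ`. For
`d(k) = ν |k|²` these are the Navier-Stokes equations with viscosity `ν`. -/
structure Solution (n : WithTop ℕ∞) (d : Z3 → ℝ) (I : Set ℝ) (u : ℝ → R3 → R3)
    (p : ℝ → R3 → ℝ) : Prop where
  smooth_u : ContDiffOn ℝ n (fun z : ℝ × R3 => u z.1 z.2) (I ×ˢ univ)
  smooth_p : ContDiffOn ℝ n (fun z : ℝ × R3 => p z.1 z.2) (I ×ˢ univ)
  periodic_u : ∀ t ∈ I, Periodic (u t)
  periodic_p : ∀ t ∈ I, Periodic (p t)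
  div_free : ∀ t ∈ I, ∀ x, ∑ i, fderiv ℝ (u t) x (Pi.single i 1) i = 0
  momentum : ∀ t ∈ I, ∀ k i,
    coeff (fun x => derivWithin (fun s => u s x i) I t + fderiv ℝ (u t) x (u t x) i
      + fderiv ℝ (p t) x (Pi.single i 1)) k = -(d k : ℂ) * coeff (fun x => u t x i) k

/-- The symbol of the dissipation: nonnegative, even, of polynomial growth. -/
structure Symbol (d : Z3 → ℝ) : Prop where
  nonneg : ∀ k, 0 ≤ d k
  even : ∀ k, d (-k) = d k
  growth : ∃ (C : ℝ) (n : ℕ), ∀ k, d k ≤ C * (1 + len k) ^ n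

/-- Initial velocities: smooth, periodic, divergence-free. -/
structure Datum (v : R3 → R3) : Prop where
  smooth : ContDiff ℝ ∞ v
  periodic : Periodic v
  div_free : ∀ x, ∑ i, fderiv ℝ v x (Pi.single i 1) i = 0

open Pool.Agent.R211.SV Pool.Agent.R211.WN Pool.Agent.R211.HV Pool.Agent.Y302.Tri
open Pool.Agent.H708R2.EulerModes
open Pool.Agent.H708R2.EulerSign (Dom Periodic3 divergence divergence_eq_sum)

lemma cell_eq : cell = Dom := by
  ext x
  rw [mem_Dom]
  simp [cell]

lemma coeff_eq (f : R3 → ℝ) (k : Z3) : coeff f k = cf f k := by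
  have e : ∀ y : R3, H459R3.NS.ee (-k) y * Pool.Agent.Y302.Trunc.resc f y
      = (fun x : R3 => Complex.exp (-((∑ j, (k j : ℝ) * x j : ℝ) : ℂ) * Complex.I) * (f x : ℂ))
        ((2 * Real.pi) • y) := by
    intro y
    rw [Pool.Agent.R211.SV.ee_eq]
    have h1 : ph (-k) ((2 * Real.pi) • y)
        = -∑ j, (k j : ℝ) * ((2 * Real.pi) • y) j := by
      unfold ph
      rw [← Finset.sum_neg_distrib]
      refine Finset.sum_congr rfl fun j _ => ?_
      rw [Pi.neg_apply]
      push_cast
      ring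
    rw [h1, Complex.ofReal_neg]
    rfl
  unfold cf H459R3.NS.fc coeff
  simp only [e]
  rw [Pool.Agent.Y302.Trunc.integral_resc (fun x : R3 =>
    Complex.exp (-((∑ j, (k j : ℝ) * x j : ℝ) : ℂ) * Complex.I) * (f x : ℂ)), cell_eq,
    Module.finrank_fin_fun]

lemma msq_eq (v : R3 → R3) (k : Z3) : msq v k = nv (cv v) k ^ 2 := by
  rw [nv_sq]
  unfold msq cv
  simp only [coeff_eq]

lemma sol_of {n : WithTop ℕ∞} (hn : 1 ≤ n) {d : Z3 → ℝ} {T : ℝ} {u : ℝ → R3 → R3}
    {p : ℝ → R3 → ℝ} (h : Solution n d (Ico 0 T) u p) : IsSol d T u p := by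
  refine ⟨⟨h.smooth_u.of_le hn, h.smooth_p.of_le hn, h.periodic_u, h.periodic_p,
    fun t ht x => ?_⟩, fun t ht k i => ?_⟩
  · rw [divergence_eq_sum]
    exact h.div_free t ht x
  · have h1 := h.momentum t ht k i
    rw [coeff_eq, coeff_eq] at h1
    unfold cv
    rw [← h1]
    congr 1
    funext x
    rw [cvt_eq]
    unfold lin
    ring

lemma smooth_Ici {F : Type*} [NormedAddCommGroup F] [NormedSpace ℝ F] {f : ℝ × R3 → F}
    (h : ∀ T : ℝ, 0 < T → ContDiffOn ℝ ∞ f (Icc 0 T ×ˢ univ)) :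
    ContDiffOn ℝ ∞ f (Ici 0 ×ˢ univ) := by
  intro z hz
  have hz0 : 0 ≤ z.1 := hz.1
  have h1 := h (z.1 + 1) (by linarith) z ⟨⟨hz0, by linarith⟩, mem_univ _⟩
  refine h1.mono_of_mem_nhdsWithin ?_
  have h2 : (Iio (z.1 + 1) ×ˢ univ : Set (ℝ × R3)) ∈ nhds z :=
    (isOpen_Iio.prod isOpen_univ).mem_nhds ⟨by simp, mem_univ _⟩
  filter_upwards [self_mem_nhdsWithin, nhdsWithin_le_nhds h2] with y hy hy2
  exact ⟨⟨hy.1, hy2.1.le⟩, mem_univ _⟩

lemma of_sol {d : Z3 → ℝ} {u : ℝ → R3 → R3} {p : ℝ → R3 → ℝ}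
    (h : ∀ T : ℝ, 0 < T → IsSol d T u p)
    (hu : ContDiffOn ℝ ∞ (fun z : ℝ × R3 => u z.1 z.2) (Ici 0 ×ˢ univ))
    (hp : ContDiffOn ℝ ∞ (fun z : ℝ × R3 => p z.1 z.2) (Ici 0 ×ˢ univ)) :
    Solution ∞ d (Ici 0) u p := by
  have hI : ∀ t : ℝ, 0 ≤ t → t ∈ Ico 0 (t + 1) := fun t ht => ⟨ht, by linarith⟩
  have hpos : ∀ t : ℝ, 0 ≤ t → 0 < t + 1 := fun t ht => by linarith
  refine ⟨hu, hp, fun t ht => (h _ (hpos t ht)).base.periodic_u t (hI t ht),
    fun t ht => (h _ (hpos t ht)).base.periodic_p t (hI t ht), fun t ht x => ?_,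
    fun t ht k i => ?_⟩
  · have := (h _ (hpos t ht)).base.div_free t (hI t ht) x
    rw [divergence_eq_sum] at this
    exact this
  · rw [coeff_eq, coeff_eq]
    have h1 := (h _ (hpos t ht)).momentum t (hI t ht) k i
    unfold cv at h1
    rw [← h1]
    congr 1
    funext x
    rw [cvt_eq]
    unfold lin
    have h2 : derivWithin (fun s => u s x i) (Ico 0 (t + 1)) t
        = derivWithin (fun s => u s x i) (Ici 0) t := by
      refine derivWithin_congr_set (Filter.eventuallyEq_set.2 ?_)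
      filter_upwards [Iio_mem_nhds (show t < t + 1 by linarith)] with s hs
      exact ⟨fun h => h.1, fun h => ⟨h, hs⟩⟩
    rw [h2]
    ring

/-- **Main theorem.** There is an absolute constant `A` with the following property. Let `d ≥ 0` be
an even symbol of polynomial growth, and let `Λ j` be a lower bound for `d` on the set of all
frequencies with `|k| ≥ 2^j`, for each `j`. Let `v` be a smooth, periodic and divergence-free initial
velocity, and `m` a number such that `∑ |k|⁶ |v^(k)|² ≤ 64^m ∑ |v^(k)|²`. If for some `N` the sum of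
`2^(-5 j / 2) Λ j` over `m < j < N` is larger than `A (∑ |v^(k)|²)^(1/2)`, then the Navier-Stokes
equations with the dissipation with the symbol `d` have a smooth solution on `[0, ∞)` with the initial
velocity `v`. It coincides with every classical (`C¹`) solution on `[0, T)` with the same initial
velocity, for every `T`. -/
theorem result : ∃ A : ℝ, 0 < A ∧
    ∀ (d : Z3 → ℝ) (Λ : ℕ → ℝ) (v : R3 → R3) (m N : ℕ), Symbol d →
      (∀ (j : ℕ) (k : Z3), 2 ^ j ≤ len k → Λ j ≤ d k) → Datum v →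
      ∑' k, len k ^ 6 * msq v k ≤ 64 ^ m * ∑' k, msq v k →
      A * √(∑' k, msq v k)
        < ∑ j ∈ Finset.Ico (m + 1) N, Λ j / (2 : ℝ) ^ (5 / 2 * (j : ℝ)) →
      ∃ (u : ℝ → R3 → R3) (p : ℝ → R3 → ℝ), Solution ∞ d (Ici 0) u p ∧ u 0 = v ∧
        ∀ (T : ℝ) (w : ℝ → R3 → R3) (q : ℝ → R3 → ℝ), Solution 1 d (Ico 0 T) w q → w 0 = v →
          ∀ t ∈ Ico 0 T, w t = u t := by
  refine ⟨524288000, by norm_num, fun d Λ v m N hd hΛ hv hm hthr => ?_⟩
  simp only [msq_eq] at hm hthr
  obtain ⟨C, n, hC⟩ := hd.growth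
  have hC0 : 0 ≤ C := by
    have h1 := (hd.nonneg 0).trans (hC 0)
    have h2 : (0 : ℝ) < (1 + len 0) ^ n := by
      have : 0 ≤ len 0 := Real.sqrt_nonneg _
      positivity
    exact nonneg_of_mul_nonneg_left h1 h2
  have hdb : ∀ k, |d k| ≤ C * wt k ^ n := by
    intro k
    rw [abs_of_nonneg (hd.nonneg k)]
    refine (hC k).trans ?_
    have h1 : len k ≤ N1 k := kn_le_N1 k
    have h2 : 0 ≤ len k := Real.sqrt_nonneg _
    unfold wt
    gcongr
  obtain ⟨A, hA, hA0⟩ := global (d := d) hd.nonneg hd.even hdb (Λ := Λ) hΛ hv.smooth hv.periodic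
    (fun x => by rw [divergence_eq_sum]; exact hv.div_free x) (m := m) (N := N) hm hthr
  have hsol : ∀ T : ℝ, 0 < T → IsSmoothSol d T (vel A) (prs A) := fun T hT =>
    isSmoothSol hA hdb hT hd.even
  refine ⟨vel A, prs A, of_sol (fun T hT => (hsol T hT).sol)
    (smooth_Ici fun T hT => vel_smooth hA hdb hT) (smooth_Ici fun T hT => prs_smooth hA hdb hT),
    hA0, fun T w q hw hw0 t ht => ?_⟩
  have hT : 0 < T := ht.1.trans_lt ht.2
  exact unique hd.nonneg (sol_of le_rfl hw) (hsol T hT).sol (by rw [hw0, hA0]) t ht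

end Pool.Agent.Results.MP_6bf1e5_an.HyperviscousWindow
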