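import Pool.Agent.R211.FP.Mn

/-!
# One-sided bounds for the strain and small velocities in critical Morrey spaces

A scale invariant regularity criterion for Leray-Hopf solutions of the Navier-Stokes equations in an
arbitrary bounded open set `Ω ⊆ ℝ³`. At a first singular time `τ` it cannot happen that for almost
every `t` near `τ` the velocity is a sum `u(t) = a + w` in `Ω`, where

* `∫_{B(x,r) ∩ Ω} |a|^{2p} ≤ (c₁ ν)^{2p} r^{3-2p}` for all balls with the radius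
  `r ≤ k √(ν (τ - t))`;
* `ξ·∇w ξ ≥ -(V + b / (τ - t)) |ξ|²` for all `ξ`, almost everywhere in `Ω`, with a function `V` with
  `∫_{B(x,r) ∩ Ω} V₊^p ≤ (c₂ ν)^p r^{3-2p}` for the same balls,

if `p > 1`, `θ = κ c₁ + κ² c₂ < 1` with `κ = 2048 p / (p - 1)`, and `b + θ / k² < 3/4`. There is no
upper bound for the eigenvalues of the strain of `w`, no bound for `w`, and no smallness of `u` in
any norm. The Morrey conditions are required only at scales below a multiple of the parabolic scale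
and hold, for `p` close to `1`, for all small elements of the weak Lebesgue spaces `L^{3,∞}` and
`L^{3/2,∞}`.

The analytic tool is the inequality of Fefferman and Phong
`∫ V f² ≤ κ² B (∫ |∇f|² + ρ⁻² ∫ f²)` if `∫_{B(x,r)} V^p ≤ B^p r^{3-2p}` for `r ≤ ρ`,
proved here with explicit constants: the dyadic maximal function of `V^p`, to the power `1/p`, is a
dyadic `A₁` weight, and the weighted inequality follows from the Poincaré inequality in dyadic
cubes by a summation over scales. It is combined with the growth estimate `EnergyStability` of the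
library for small scale perturbations before a first singular time.
-/

set_option autoImplicit false

open MeasureTheory Set
open scoped InnerProductSpace ENNReal ContDiff

namespace Pool.Agent.Results.MP_fd8964_an.OneSidedMorrey

open H772R2.NS.Pub Pool.Agent.W795.TQ Pool.Agent.R211.FP

/-- Let `u` be a Leray-Hopf solution on `[0,T]` with admissible data in a bounded open set `Ω`.
Then either `u` is a strong solution on `[0,T]`, or there is a first singular time `τ ∈ (0,T]` with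
the following properties, for all `p > 1`, `c₁, c₂ > 0` with `θ = κ c₁ + κ² c₂ < 1`, where
`κ = 2048 p / (p - 1)`.
(1) For `0 ≤ s < τ` there is a number `M` such that, whenever `β ≥ 0` is locally integrable on
`[s,τ)` and for almost every `t ∈ (s,τ)` there are `ρ > 0` and `β₀` with `β₀ + θ ν / ρ² ≤ β(t)` and
`OneSided p c₁ c₂ ν ρ β₀ (u t)`, one has `∫_s^t β ≥ (3/4) log (1/(τ - t)) - M` for `t < τ`
arbitrarily close to `τ`.
(2) If `b ≥ 0`, `k > 0` and `b + θ / k² < 3/4`, it is impossible that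
`OneSided p c₁ c₂ ν (k √(ν (τ - t))) (b / (τ - t)) (u t)` holds for almost every `t` in an interval
`(t₁,τ)`. -/
theorem result :
    ∀ (Ω : Set R3), IsOpen Ω → Bornology.IsBounded Ω → ∀ (ν T : ℝ), 0 < ν → 0 < T →
    ∀ (F F' : ℝ → L2 Ω Mat), IsH1 T F F' →
    ∀ (u : ℝ → L2 Ω R3) (G : ℝ → L2 Ω Mat), IsLerayHopf Ω ν T F u G →
    ∀ z0 : L2 Ω Mat, (u 0, z0) ∈ H1graph Ω →
    (∃ g : L2 Ω R3, ∀ φ, IsTest Ω φ → rhs ν (u 0) z0 (F 0) φ = ∫ x in Ω, ⟪g.fn x, φ x⟫_ℝ) →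
    (∃ u' G1 G', IsStrong Ω ν T F u u' G1 G') ∨
    ∃ τ ∈ Ioc 0 T, (∀ t ∈ Ioo 0 τ, ∃ u' G1 G', IsStrong Ω ν t F u u' G1 G') ∧
      ∀ p c₁ c₂ θ : ℝ, 1 < p → 0 < c₁ → 0 < c₂ → θ = kappa p * c₁ + kappa p ^ 2 * c₂ → θ < 1 →
        (∀ s ∈ Ico 0 τ, ∃ M : ℝ, ∀ β : ℝ → ℝ,
          (∀ t, 0 ≤ β t) → (∀ t ∈ Ioo s τ, IntervalIntegrable β volume s t) →
          (∀ᵐ t ∂(volume.restrict (Ioo s τ)), ∃ ρ β₀ : ℝ, 0 < ρ ∧ β₀ + θ * ν / ρ ^ 2 ≤ β t ∧
            OneSided p c₁ c₂ ν ρ β₀ (u t)) →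
          ∀ t0 < τ, ∃ t ∈ Ioo t0 τ, s < t ∧
            3 / 4 * Real.log (1 / (τ - t)) - M ≤ ∫ r in s..t, β r) ∧
        ∀ b k t1 : ℝ, 0 ≤ b → 0 < k → b + θ / k ^ 2 < 3 / 4 → t1 < τ →
          ¬ ∀ᵐ t ∂(volume.restrict (Ioo t1 τ)),
            OneSided p c₁ c₂ ν (k * Real.sqrt (ν * (τ - t))) (b / (τ - t)) (u t) := by
  intro Ω hΩ hb ν T hν hT F F' hF u G L z0 h0 hg
  rcases main_gen Ω hΩ hb ν T hν hT F F' hF u G L z0 h0 hg with h1 | ⟨τ, hτ, h1, hG, h2⟩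
  · exact Or.inl h1
  refine Or.inr ⟨τ, hτ, h1, fun p c₁ c₂ θ hp hc₁ hc₂ hθ hθ1 => ?_⟩
  have hk : 0 < kappa p := kap_pos hp
  have hθ0 : 0 ≤ θ := by
    rw [hθ]
    positivity
  have key : ∀ s ∈ Ico 0 τ, ∃ M : ℝ, ∀ β : ℝ → ℝ,
      (∀ t, 0 ≤ β t) → (∀ t ∈ Ioo s τ, IntervalIntegrable β volume s t) →
      (∀ᵐ t ∂(volume.restrict (Ioo s τ)), ∃ ρ β₀ : ℝ, 0 < ρ ∧ β₀ + θ * ν / ρ ^ 2 ≤ β t ∧
        OneSided p c₁ c₂ ν ρ β₀ (u t)) →
      ∀ t0 < τ, ∃ t ∈ Ioo t0 τ, s < t ∧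
        3 / 4 * Real.log (1 / (τ - t)) - M ≤ ∫ r in s..t, β r := by
    intro s hs
    obtain ⟨M, hM⟩ := h2 θ hθ0 hθ1 s hs
    refine ⟨M, fun β hβ0 hβi hyp => hM β hβ0 hβi ?_⟩
    have hsub : Ioo s τ ⊆ Ioc 0 τ := fun t ht => ⟨hs.1.trans_lt ht.1, ht.2.le⟩
    have hG' : ∀ᵐ t ∂(volume.restrict (Ioo s τ)), (u t, G t) ∈ H1graph Ω :=
      ae_restrict_of_ae_restrict_of_subset hsub hG
    filter_upwards [hyp, hG'] with t ht hGt
    obtain ⟨ρ, β₀, hρ, hle, hos⟩ := ht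
    intro q hq
    refine (pub_form hΩ hb hp hν hc₁ hc₂ hρ hGt hos hq).trans ?_
    rw [← hθ]
    have h5 : (θ * ν / ρ ^ 2 + β₀) * ‖q.1‖ ^ 2 ≤ β t * ‖q.1‖ ^ 2 := by
      have : θ * ν / ρ ^ 2 + β₀ ≤ β t := by linarith
      gcongr
    linarith
  refine ⟨key, fun b k t1 hb0 hk0 hbk ht1 hyp => ?_⟩
  have hγ0 : 0 ≤ b + θ / k ^ 2 := by positivity
  refine explicit_gen hτ.1 (Q := fun β t => ∃ ρ β₀ : ℝ, 0 < ρ ∧ β₀ + θ * ν / ρ ^ 2 ≤ β t ∧
    OneSided p c₁ c₂ ν ρ β₀ (u t)) key hγ0 hbk ht1 ?_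
  filter_upwards [hyp, ae_restrict_mem measurableSet_Ioo] with t ht htI
  have hpt : 0 < τ - t := by linarith [htI.2]
  refine ⟨k * Real.sqrt (ν * (τ - t)), b / (τ - t), by positivity, ?_, ht⟩
  rw [abs_of_pos hpt, mul_pow, Real.sq_sqrt (by positivity)]
  refine le_of_eq ?_
  field_simp

end Pool.Agent.Results.MP_fd8964_an.OneSidedMorrey
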