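import Pool.Agent.R211.SV.Final
import Pool.Agent.R211.SV.Iso

/-!
Breakdown for the three-dimensional periodic Navier-Stokes equations, with their exact nonlinearity,
when the viscosity is weakened only at a very sparse set of Fourier modes.

The linear dissipation is a Fourier multiplier with a nonnegative symbol `d` which is invariant under
the 48 signed permutations of the coordinates. The set `S M` of exceptional frequencies has at most
`240 log N` elements with coordinates bounded by `N`, and every element of `S M` has a coordinate of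
modulus at least `3 M`. At all other frequencies the dissipation is at least as strong as the
viscosity, `d k ≥ ν |k|²`, and may be stronger, for instance `d k = ν |k|^(2 s)` with any `s ≥ 1`. On
`S M` one has `d k ≤ κ |k|^(2 α)` with `α < 1 / 3` (`κ = 0` is allowed: no dissipation on `S M`).

If `M = 2 ^ m`, then `S M` is the set of the frequencies `k` such that `|k|²` is one of the numbers
`4 ^ m 64 ^ j r` with `j ≥ 0` and `r` one of `11, 40, 88, 208`. So the dissipation can be isotropic, a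
function `D(-Δ)` of the Laplacian, with `D(n) ≥ ν n` for all eigenvalues `n` of `-Δ` outside of this
lacunary sequence, for instance `D(n) = ν n` outside of the sequence and `D(n) = 0` in it.
-/

open MeasureTheory Set
open scoped ContDiff

set_option autoImplicit false

namespace Pool.Agent.Results.MP_6bf1e5_an.SparseInviscidModes

/-- The space `ℝ³`. -/
abbrev R3 := Fin 3 → ℝ

/-- The frequencies. -/
abbrev Z3 := Fin 3 → ℤ

/-- The period cell `[0, 2π)³`. -/
def cell : Set R3 := Set.pi univ fun _ => Ico 0 (2 * Real.pi)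

/-- `f` is `2π`-periodic in each coordinate. -/
def Periodic {F : Type*} (f : R3 → F) : Prop :=
  ∀ (i : Fin 3) (x : R3), f (x + Pi.single i (2 * Real.pi)) = f x

/-- The Fourier coefficient `(2π)⁻³ ∫ f(x) exp(-i k · x) dx`. -/
noncomputable def coeff (f : R3 → ℝ) (k : Z3) : ℂ :=
  (((2 * Real.pi) ^ 3)⁻¹ : ℝ) • ∫ x in cell,
    Complex.exp (-((∑ j, (k j : ℝ) * x j : ℝ) : ℂ) * Complex.I) * (f x : ℂ)

/-- `|k|²` -/
noncomputable def nsq (k : Z3) : ℝ := ∑ j, (k j : ℝ) ^ 2

/-- `|k₁| + |k₂| + |k₃|` -/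
noncomputable def nabs (k : Z3) : ℝ := ∑ j, |(k j : ℝ)|

/-- `(u, p)` is a solution of class `Cⁿ` on `[0, T) × (ℝ / 2πℤ)³` of the Navier-Stokes equations,
with the dissipation given by the Fourier multiplier with the symbol `d`: `div u = 0`, and for every
time `t`, every component `i` and every frequency `k` the Fourier coefficient at `k` of
`∂ₜ uᵢ + (u · ∇) uᵢ + ∂ᵢ p` is `-d(k)` times the one of `uᵢ`. For `d(k) = ν |k|²` these are the
Navier-Stokes equations with viscosity `ν`. -/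
structure Solution (n : WithTop ℕ∞) (d : Z3 → ℝ) (T : ℝ) (u : ℝ → R3 → R3) (p : ℝ → R3 → ℝ) :
    Prop where
  smooth_u : ContDiffOn ℝ n (fun z : ℝ × R3 => u z.1 z.2) (Ico 0 T ×ˢ univ)
  smooth_p : ContDiffOn ℝ n (fun z : ℝ × R3 => p z.1 z.2) (Ico 0 T ×ˢ univ)
  periodic_u : ∀ t ∈ Ico 0 T, Periodic (u t)
  periodic_p : ∀ t ∈ Ico 0 T, Periodic (p t)
  div_free : ∀ t ∈ Ico 0 T, ∀ x, ∑ i, fderiv ℝ (u t) x (Pi.single i 1) i = 0
  momentum : ∀ t ∈ Ico 0 T, ∀ k i,
    coeff (fun x => derivWithin (fun s => u s x i) (Ico 0 T) t + fderiv ℝ (u t) x (u t x) i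
      + fderiv ℝ (p t) x (Pi.single i 1)) k = -(d k : ℂ) * coeff (fun x => u t x i) k

/-- The field `v` commutes with all signed permutations of the coordinates. -/
def Symmetric (v : R3 → R3) : Prop :=
  ∀ (s : Fin 3 → ℤ) (σ : Equiv.Perm (Fin 3)), (∀ i, s i = 1 ∨ s i = -1) →
    ∀ x : R3, v (fun i => (s i : ℝ) * x (σ i)) = fun i => (s i : ℝ) * v x (σ i)

/-- The basic frequencies. -/
def base : Fin 4 → Z3 := ![![1, 1, 3], ![2, 0, 6], ![4, 6, 6], ![8, 12, 0]]

/-- The set of frequencies: all signed permutations of the vectors `M 8ʲ b`, `j ≥ 0`, `b` one of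
`(1, 1, 3)`, `(2, 0, 6)`, `(4, 6, 6)`, `(8, 12, 0)`. -/
def S (M : ℕ) : Set Z3 :=
  {k | ∃ (j : ℕ) (b : Fin 4) (s : Fin 3 → ℤ) (σ : Equiv.Perm (Fin 3)),
    (∀ i, s i = 1 ∨ s i = -1) ∧ k = fun i => s i * ((M * 8 ^ j : ℤ) * base b (σ i))}

/-- The symbol of the dissipation: nonnegative, invariant under signed permutations, at least
`ν |k|²` off `S M`, at most `κ |k|^(2 α)` on `S M`. -/
structure Symbol (M : ℕ) (ν κ α : ℝ) (d : Z3 → ℝ) : Prop where
  nonneg : ∀ k, 0 ≤ d k
  symm : ∀ (s : Fin 3 → ℤ) (σ : Equiv.Perm (Fin 3)), (∀ i, s i = 1 ∨ s i = -1) →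
    ∀ k : Z3, d (fun i => s i * k (σ i)) = d k
  off : ∀ k ∉ S M, ν * nsq k ≤ d k
  on : ∀ k ∈ S M, d k ≤ κ * nsq k ^ α

/-- The symbol has subexponential growth. -/
def Subexponential (d : Z3 → ℝ) : Prop := ∀ e > 0, ∃ C, ∀ k, d k ≤ C * Real.exp (e * nabs k)

/-- The field with the components
`3 sin(M xᵢ) (cos(M xⱼ) cos(3 M xₖ) + cos(3 M xⱼ) cos(M xₖ)) - 2 sin(3 M xᵢ) cos(M xⱼ) cos(M xₖ)`,
where `{i, j, k} = {1, 2, 3}`. -/
noncomputable def G (M : ℕ) (x : R3) : R3 := fun i =>
  3 * Real.sin (M * x i) * (Real.cos (M * x (i + 1)) * Real.cos (3 * M * x (i + 2))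
    + Real.cos (3 * M * x (i + 1)) * Real.cos (M * x (i + 2)))
  - 2 * Real.sin (3 * M * x i) * (Real.cos (M * x (i + 1)) * Real.cos (M * x (i + 2)))

/-- Initial velocities: continuously differentiable, periodic, divergence-free, symmetric, with
exponentially decaying Fourier coefficients (so that they are real analytic). -/
structure Datum (v : R3 → R3) : Prop where
  smooth : ContDiff ℝ 1 v
  periodic : Periodic v
  div_free : ∀ x, ∑ i, fderiv ℝ v x (Pi.single i 1) i = 0
  symmetric : Symmetric v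
  analytic : ∃ r > 0, ∀ i, Summable fun k => Real.exp (r * nabs k) * ‖coeff (fun x => v x i) k‖

open Pool.Agent.R211.SV Pool.Agent.Y302.Tri Pool.Agent.H708R2.EulerModes
open Pool.Agent.H708R2.EulerSign (Dom Periodic3 divergence divergence_eq_sum)

lemma cell_eq : cell = Dom := by
  ext x
  rw [mem_Dom]
  simp [cell]

lemma coeff_eq (f : R3 → ℝ) (k : Z3) : coeff f k = cf f k := by
  have e : ∀ y : R3, H459R3.NS.ee (-k) y * Pool.Agent.Y302.Trunc.resc f y
      = (fun x : R3 => Complex.exp (-((∑ j, (k j : ℝ) * x j : ℝ) : ℂ) * Complex.I) * (f x : ℂ))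
        ((2 * Real.pi) • y) := by
    intro y
    rw [ee_eq]
    have h1 : ph (-k) ((2 * Real.pi) • y)
        = -∑ j, (k j : ℝ) * ((2 * Real.pi) • y) j := by
      unfold ph
      rw [← Finset.sum_neg_distrib]
      refine Finset.sum_congr rfl fun j _ => ?_
      rw [Pi.neg_apply]
      push_cast
      ring
    rw [h1, Complex.ofReal_neg]
    rfl
  unfold cf H459R3.NS.fc coeff
  simp only [e]
  rw [Pool.Agent.Y302.Trunc.integral_resc (fun x : R3 =>
    Complex.exp (-((∑ j, (k j : ℝ) * x j : ℝ) : ℂ) * Complex.I) * (f x : ℂ)), cell_eq,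
    Module.finrank_fin_fun]

lemma sol_of {n : WithTop ℕ∞} (hn : 1 ≤ n) {d : Z3 → ℝ} {T : ℝ} {u : ℝ → R3 → R3}
    {p : ℝ → R3 → ℝ} (h : Solution n d T u p) : IsSol d T u p := by
  refine ⟨⟨h.smooth_u.of_le hn, h.smooth_p.of_le hn, h.periodic_u, h.periodic_p,
    fun t ht x => ?_⟩, fun t ht k i => ?_⟩
  · rw [divergence_eq_sum]
    exact h.div_free t ht x
  · have h1 := h.momentum t ht k i
    rw [coeff_eq, coeff_eq] at h1
    unfold cv
    rw [← h1]
    congr 1
    funext x
    rw [cvt_eq]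
    unfold lin
    ring

lemma of_sol {n : WithTop ℕ∞} {d : Z3 → ℝ} {T : ℝ} {u : ℝ → R3 → R3} {p : ℝ → R3 → ℝ}
    (h : IsSol d T u p) (hu : ContDiffOn ℝ n (fun z : ℝ × R3 => u z.1 z.2) (Ico 0 T ×ˢ univ))
    (hp : ContDiffOn ℝ n (fun z : ℝ × R3 => p z.1 z.2) (Ico 0 T ×ˢ univ)) :
    Solution n d T u p := by
  refine ⟨hu, hp, h.base.periodic_u, h.base.periodic_p, fun t ht x => ?_, fun t ht k i => ?_⟩
  · have := h.base.div_free t ht x
    rw [divergence_eq_sum] at this
    exact this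
  · rw [coeff_eq, coeff_eq]
    have h1 := h.momentum t ht k i
    unfold cv at h1
    rw [← h1]
    congr 1
    funext x
    rw [cvt_eq]
    unfold lin
    ring

lemma S_eq (M : ℕ) : S M = SF M := rfl

/-- **Main theorem.** For every `0 ≤ α < 1 / 3` there is an `ε > 0` such that the following holds for
all `M`, `ν`, `κ`, `A` with `κ M^(2 α) ≤ ε M A` and `A ≤ ε ν M`, and all symbols `d` with `d ≥ 0`,
`d k ≥ ν |k|²` for `k ∉ S M`, `d k ≤ κ |k|^(2 α)` for `k ∈ S M` and the symmetry of the cube.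

(1) Every classical (`C¹`) solution on `[0, T)` whose initial velocity is symmetric and has the `L²`
distance at most `ε A` from `A G` satisfies `T ≤ 1 / (ε M A)`.

(2) If `d` has subexponential growth, then for every real-analytic symmetric divergence-free
initial velocity `v` within the `L²` distance `ε A` of `A G` there is a maximal smooth solution,
on `[0, Ts)` with `0 < Ts ≤ 1 / (ε M A)`: no smooth solution exists on a longer interval, and it
coincides with every classical solution with the same initial velocity on the common interval.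

(3) `A G` itself is such an initial velocity.

The set `S M` contains at most `240 log N` frequencies with coordinates bounded by `N`, and each of
its elements has a coordinate of modulus at least `3 M`. If `M` is a power of two, then it is a union
of spheres whose squared radii form a lacunary sequence. -/
theorem result :
    (∀ α : ℝ, 0 ≤ α → α < 1 / 3 → ∃ ε : ℝ, 0 < ε ∧
      ∀ (M : ℕ) (ν κ A : ℝ) (d : Z3 → ℝ), 0 < M → 0 < ν → 0 ≤ κ → 0 < A →
        κ * (M : ℝ) ^ (2 * α) ≤ ε * M * A → A ≤ ε * ν * M → Symbol M ν κ α d →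
        (∀ (T : ℝ) (u : ℝ → R3 → R3) (p : ℝ → R3 → ℝ), Solution 1 d T u p → Symmetric (u 0) →
          ∫ x in cell, ∑ i, (u 0 x i - A * G M x i) ^ 2 ≤ (ε * A) ^ 2 → T ≤ 1 / (ε * M * A)) ∧
        (Subexponential d → ∀ v : R3 → R3, Datum v →
          ∫ x in cell, ∑ i, (v x i - A * G M x i) ^ 2 ≤ (ε * A) ^ 2 →
          ∃ (Ts : ℝ) (u : ℝ → R3 → R3) (p : ℝ → R3 → ℝ), 0 < Ts ∧ Ts ≤ 1 / (ε * M * A) ∧
            Solution ∞ d Ts u p ∧ u 0 = v ∧
            (∀ (T : ℝ) (w : ℝ → R3 → R3) (q : ℝ → R3 → ℝ), Solution ∞ d T w q → w 0 = v →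
              T ≤ Ts) ∧
            ∀ (T : ℝ) (w : ℝ → R3 → R3) (q : ℝ → R3 → ℝ), Solution 1 d T w q → w 0 = v →
              ∀ t ∈ Ico 0 T, t < Ts → w t = u t)) ∧
    (∀ (M : ℕ) (A : ℝ), 0 < M → Datum (fun x => A • G M x)) ∧
    (∀ M N : ℕ, 0 < M → 2 ≤ N → {k ∈ S M | ∀ i, |k i| ≤ N}.Finite ∧
      ({k ∈ S M | ∀ i, |k i| ≤ N}.ncard : ℝ) ≤ 240 * Real.log N) ∧
    (∀ M : ℕ, 0 < M → ∀ k ∈ S M, ∃ i, 3 * (M : ℤ) ≤ |k i|) ∧
    ∀ m : ℕ, S (2 ^ m) = {k | ∃ j : ℕ, ∃ r ∈ ({11, 40, 88, 208} : Set ℤ),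
      ∑ i, k i ^ 2 = 4 ^ m * 64 ^ j * r} := by
  refine ⟨fun α hα0 hα => ?_, fun M A hM => ?_, fun M N hM hN => SF_count hM hN,
    fun M hM k hk => SF_low hM hk, fun m => ?_⟩
  · obtain ⟨ε, hε, h⟩ := main hα0 hα
    refine ⟨ε, hε, fun M ν κ A d hM hν hκ hA h1 h2 hS => ?_⟩
    obtain ⟨h3, h4⟩ := h M ν κ A d hM hν hκ hA h1 h2 ⟨hS.nonneg, hS.symm, hS.off, hS.on⟩
    rw [cell_eq]
    refine ⟨fun T u p hu h0 hcl => h3 T u p (sol_of le_rfl hu) h0 hcl,
      fun hs v hv hcl => ?_⟩
    have hsub : Subexp d := by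
      intro e he
      obtain ⟨C, hC⟩ := hs e he
      refine ⟨C, fun k => ?_⟩
      rw [abs_of_nonneg (hS.nonneg k)]
      exact hC k
    obtain ⟨Ts, u, p, k1, k2, k3, k4, k5, k6⟩ := h4 hsub v hv.smooth hv.periodic
      (fun x => by rw [divergence_eq_sum]; exact hv.div_free x) hv.symmetric (by
        obtain ⟨r, hr, hsum⟩ := hv.analytic
        refine ⟨r, hr, fun i => ?_⟩
        have := hsum i
        simp only [coeff_eq] at this
        exact this) hcl
    refine ⟨Ts, u, p, k1, k2, of_sol k3.sol k3.smooth_u k3.smooth_p, k4, fun T w q hw hw0 => ?_,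
      fun T w q hw hw0 t ht htT => ?_⟩
    · exact k5 T w q ⟨sol_of (by exact_mod_cast le_top) hw, hw.smooth_u, hw.smooth_p⟩ hw0
    · exact k6 T w q (sol_of le_rfl hw) hw0 t ht htT
  · obtain ⟨k1, k2, k3, k4, r, hr, k5⟩ := datum_ok hM A
    refine ⟨k1, k2, fun x => ?_, k4, r, hr, fun i => ?_⟩
    · have := k3 x
      rw [divergence_eq_sum] at this
      exact this
    · have := k5 i
      simp only [coeff_eq]
      exact this
  · ext k
    rw [S_eq, SF_iso]
    constructor
    · rintro ⟨j, i, h⟩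
      refine ⟨j, rad i, ?_, h⟩
      fin_cases i <;> simp [rad]
    · rintro ⟨j, r, hr, h⟩
      simp only [mem_insert_iff, mem_singleton_iff] at hr
      rcases hr with rfl | rfl | rfl | rfl
      · exact ⟨j, 0, h⟩
      · exact ⟨j, 1, h⟩
      · exact ⟨j, 2, h⟩
      · exact ⟨j, 3, h⟩

end Pool.Agent.Results.MP_6bf1e5_an.SparseInviscidModes
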